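import Mathlib

set_option autoImplicit false
set_option maxHeartbeats 1000000

/-!
For every `k ≥ 4` there is no constant `c = c(k)`, independent of `ε`, as asked in Q1.

Let `A` be the set of lattice points `(y, x)`, `x ∈ [-r, r]^d`, `0 ≤ y ≤ H - |x|²`, `d = k - 1`,
`H = 2 d r²`. It has about `R^d` pairwise disjoint caps such that a sum of two points of `A` lies in
a doubled cap only if both points lie in the cap. A doubled cap contains `ζ` points, hence a subset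
`A'` with `a` points in that cap misses at least `ζ - √ζ a` of them. Summing over all the caps,
`A' + A'` misses at least `N ζ - √ζ |A'|` points of a set with about `2^k |A|` points, and
`N √ζ / √|A|` is of order `R^((k-3)/2)`.
-/

namespace Pool.Agent.Results.MP_0aa4f4_co.NegativeFourUp

open Finset
open scoped Pointwise

/-- The finite set `A ⊆ ℤ^k` is contained in `t` parallel hyperplanes. -/
def InParallelHyperplanes {k : ℕ} (t : ℕ) (A : Finset (Fin k → ℤ)) : Prop :=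
  ∃ v : Fin k → ℝ, v ≠ 0 ∧ ∃ s : Fin t → ℝ, ∀ a ∈ A, ∃ i : Fin t, ∑ j, v j * (a j : ℝ) = s i

/-- The property asked about in Q1, in dimension `k`. -/
def UniformSmallSubsets (k : ℕ) : Prop :=
  ∃ c : ℝ, ∀ ε : ℝ, 0 < ε → ∃ t : ℕ, ∀ A : Finset (Fin k → ℤ), ¬ InParallelHyperplanes t A →
    ∃ A' ⊆ A, (A'.card : ℝ) ≤ c * √(A.card : ℝ) ∧
      (2 ^ k - ε) * (A.card : ℝ) ≤ ((A' + A').card : ℝ)

variable {d : ℕ}

/-- squared length -/
def sq (x : Fin d → ℤ) : ℤ := ∑ i, x i ^ 2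

/-- inner product -/
def ip (x y : Fin d → ℤ) : ℤ := ∑ i, x i * y i

/-- the box `[-r, r]^d` -/
noncomputable def box (d r : ℕ) : Finset (Fin d → ℤ) := Fintype.piFinset fun _ => Icc (-(r : ℤ)) r

lemma mem_box {r : ℕ} {x : Fin d → ℤ} : x ∈ box d r ↔ ∀ i, -(r : ℤ) ≤ x i ∧ x i ≤ r := by
  simp [box, Fintype.mem_piFinset]

lemma card_box (r : ℕ) : (box d r).card = (2 * r + 1) ^ d := by
  rw [box, Fintype.card_piFinset_const]
  congr 1
  rw [Int.card_Icc]
  omega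

lemma sq_nonneg' (x : Fin d → ℤ) : 0 ≤ sq x := sum_nonneg fun i _ => sq_nonneg (x i)

lemma sq_le_of_box {r : ℕ} {x : Fin d → ℤ} (hx : x ∈ box d r) : sq x ≤ d * (r : ℤ) ^ 2 := by
  rw [mem_box] at hx
  have : sq x ≤ ∑ _i : Fin d, (r : ℤ) ^ 2 := by
    refine sum_le_sum fun i _ => ?_
    exact sq_le_sq' (hx i).1 (hx i).2
  simpa using this

lemma sq_sub (x y : Fin d → ℤ) : sq (x - y) = sq x - 2 * ip y x + sq y := by
  simp only [sq, ip, Pi.sub_apply, mul_sum]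
  rw [← sum_sub_distrib, ← sum_add_distrib]
  refine sum_congr rfl fun i _ => ?_
  ring

lemma sq_add_le (x y : Fin d → ℤ) : sq (x + y) ≤ 2 * sq x + 2 * sq y := by
  simp only [sq, Pi.add_apply, mul_sum]
  rw [← sum_add_distrib]
  refine sum_le_sum fun i _ => ?_
  nlinarith [sq_nonneg (x i - y i)]

lemma ip_add (x y z : Fin d → ℤ) : ip x (y + z) = ip x y + ip x z := by
  simp only [ip, Pi.add_apply]
  rw [← sum_add_distrib]
  refine sum_congr rfl fun i _ => ?_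
  ring

/-- If two points are close to a common point, they are close. -/
lemma sq_sub_le (x y z : Fin d → ℤ) : sq (x - y) ≤ 2 * sq (z - x) + 2 * sq (z - y) := by
  simp only [sq, Pi.sub_apply, mul_sum]
  rw [← sum_add_distrib]
  refine sum_le_sum fun i _ => ?_
  nlinarith [sq_nonneg (2 * z i - x i - y i)]

/-- Lattice points under a paraboloid: `|x_i| ≤ r`, `0 ≤ y ≤ L - |x|²`. -/
noncomputable def S (r : ℕ) (L : ℤ) : Finset (Fin (d + 1) → ℤ) :=
  ((box d r).sigma fun x => Icc 0 (L - sq x)).map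
    ⟨fun z => (Fin.cons z.2 z.1 : Fin (d + 1) → ℤ), by
      rintro ⟨x, y⟩ ⟨x', y'⟩ h
      have h' : (Fin.cons y x : Fin (d + 1) → ℤ) = Fin.cons y' x' := h
      rw [Fin.cons_inj] at h'
      rw [h'.1, h'.2]⟩

lemma mem_S {r : ℕ} {L : ℤ} {p : Fin (d + 1) → ℤ} :
    p ∈ S r L ↔ Fin.tail p ∈ box d r ∧ 0 ≤ p 0 ∧ p 0 + sq (Fin.tail p) ≤ L := by
  rw [S, mem_map]
  constructor
  · rintro ⟨⟨x, y⟩, hz, rfl⟩
    rw [mem_sigma, mem_Icc] at hz
    obtain ⟨h1, h2, h3⟩ := hz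
    simp only [Function.Embedding.coeFn_mk, Fin.tail_cons, Fin.cons_zero] at *
    exact ⟨h1, h2, by linarith⟩
  · rintro ⟨h1, h2, h3⟩
    refine ⟨⟨Fin.tail p, p 0⟩, ?_, Fin.cons_self_tail p⟩
    rw [mem_sigma, mem_Icc]
    exact ⟨h1, h2, by linarith⟩

lemma card_S {r : ℕ} {L : ℤ} (hL : d * (r : ℤ) ^ 2 ≤ L) :
    ((S (d := d) r L).card : ℤ) = ∑ x ∈ box d r, (L - sq x + 1) := by
  rw [S, card_map, card_sigma]
  push_cast
  refine sum_congr rfl fun x hx => ?_
  have := sq_le_of_box hx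
  rw [Int.card_Icc]
  rw [Int.toNat_of_nonneg (by linarith)]
  ring

lemma card_S_add {r : ℕ} {L : ℤ} (hL : d * (r : ℤ) ^ 2 ≤ L) (M : ℕ) :
    (S (d := d) r (L + M)).card = (S (d := d) r L).card + (2 * r + 1) ^ d * M := by
  have h1 := card_S (d := d) (r := r) (L := L + M) (by linarith)
  have h2 := card_S (d := d) (r := r) hL
  have h3 : ∑ x ∈ box d r, (L + M - sq x + 1) = ∑ x ∈ box d r, (L - sq x + 1) +
      ((box d r).card : ℤ) * M := by
    rw [← nsmul_eq_mul, ← sum_const, ← sum_add_distrib]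
    refine sum_congr rfl fun x _ => ?_
    ring
  rw [card_box] at h3
  have : ((S (d := d) r (L + M)).card : ℤ) =
      (((S (d := d) r L).card + (2 * r + 1) ^ d * M : ℕ) : ℤ) := by
    rw [h1, h3, ← h2]
    push_cast
    ring
  exact_mod_cast this

lemma card_S_ge {r : ℕ} {L : ℤ} {M : ℕ} (hL : d * (r : ℤ) ^ 2 + M ≤ L + 1) (hL' : d * (r : ℤ) ^ 2 ≤ L) :
    (2 * r + 1) ^ d * M ≤ (S (d := d) r L).card := by
  have h2 := card_S (d := d) (r := r) hL'
  have h3 : ∑ x ∈ box d r, (M : ℤ) ≤ ∑ x ∈ box d r, (L - sq x + 1) := by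
    refine sum_le_sum fun x hx => ?_
    have := sq_le_of_box hx
    linarith
  rw [sum_const, card_box, nsmul_eq_mul, ← h2] at h3
  exact_mod_cast h3

lemma card_S_le {r : ℕ} {L : ℤ} {M : ℕ} (hL : L + 1 ≤ M) (hL' : d * (r : ℤ) ^ 2 ≤ L) :
    (S (d := d) r L).card ≤ (2 * r + 1) ^ d * M := by
  have h2 := card_S (d := d) (r := r) hL'
  have h3 : ∑ x ∈ box d r, (L - sq x + 1) ≤ ∑ x ∈ box d r, (M : ℤ) := by
    refine sum_le_sum fun x hx => ?_
    have := sq_nonneg' x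
    linarith
  rw [sum_const, card_box, nsmul_eq_mul, ← h2] at h3
  exact_mod_cast h3


/-- All points `2p + σ` with `p ∈ S r L` and `σ ∈ {0,1}^(d+1)`. -/
noncomputable def W (r : ℕ) (L : ℤ) : Finset (Fin (d + 1) → ℤ) :=
  ((S (d := d) r L) ×ˢ (Fintype.piFinset fun _ : Fin (d + 1) => Icc (0 : ℤ) 1)).image
    fun z => (2 : ℤ) • z.1 + z.2

lemma card_W_le (r : ℕ) (L : ℤ) : (W (d := d) r L).card ≤ (S (d := d) r L).card * 2 ^ (d + 1) := by
  refine card_image_le.trans ?_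
  rw [card_product, Fintype.card_piFinset_const]
  simp

lemma mem_W {r : ℕ} {H : ℤ} {z : Fin (d + 1) → ℤ} (h1 : Fin.tail z ∈ box d (2 * r))
    (h2 : 0 ≤ z 0) (h3 : 2 * z 0 + sq (Fin.tail z) ≤ 4 * H) :
    z ∈ W r (H + (d * r : ℕ)) := by
  rw [W, mem_image]
  refine ⟨(fun i => z i / 2, fun i => z i % 2), ?_, ?_⟩
  · rw [mem_product]
    constructor
    · rw [mem_S]
      simp only
      rw [mem_box] at h1
      have hb : ∀ i, -(r : ℤ) ≤ (Fin.tail z i) / 2 ∧ (Fin.tail z i) / 2 ≤ r := by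
        intro i
        have := h1 i
        push_cast at this
        omega
      refine ⟨?_, by omega, ?_⟩
      · rw [mem_box]
        exact hb
      · have h4 : 4 * sq (fun i => (Fin.tail z i) / 2) ≤ sq (Fin.tail z) + 4 * (d * r : ℕ) := by
          have : ∀ i, 4 * ((Fin.tail z i) / 2) ^ 2 ≤ (Fin.tail z i) ^ 2 + 4 * r := by
            intro i
            have h5 := hb i
            have h6 := Int.emod_nonneg (Fin.tail z i) (show (2 : ℤ) ≠ 0 by norm_num)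
            have h7 := Int.emod_lt_of_pos (Fin.tail z i) (show (0 : ℤ) < 2 by norm_num)
            have h8 := Int.emod_add_mul_ediv (Fin.tail z i) 2
            generalize Fin.tail z i / 2 = a at *
            generalize Fin.tail z i % 2 = b at *
            rw [← h8]
            have h9 : b = 0 ∨ b = 1 := by omega
            rcases h9 with rfl | rfl
            · nlinarith
            · nlinarith
          calc 4 * sq (fun i => (Fin.tail z i) / 2)
              = ∑ i, 4 * ((Fin.tail z i) / 2) ^ 2 := by rw [sq, mul_sum]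
            _ ≤ ∑ i, ((Fin.tail z i) ^ 2 + 4 * (r : ℤ)) := sum_le_sum fun i _ => this i
            _ = sq (Fin.tail z) + 4 * (d * r : ℕ) := by
                rw [sum_add_distrib, sq]
                simp
                ring
        have h5 : 2 * (z 0 / 2) ≤ z 0 := by omega
        have h6 : sq (Fin.tail fun i => z i / 2) = sq (fun i => (Fin.tail z i) / 2) := rfl
        rw [h6]
        linarith
    · rw [Fintype.mem_piFinset]
      intro i
      rw [mem_Icc]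
      simp only
      omega
  · funext i
    simp only [Pi.add_apply, Pi.smul_apply, smul_eq_mul]
    omega

/-- centre of the cap indexed by `g` -/
def ctr (m : ℕ) (g : Fin d → ℤ) : Fin d → ℤ := fun i => m * g i

/-- The cap of `A` cut off by the hyperplane with index `g`. -/
def Cap (m : ℕ) (H h : ℤ) (g : Fin d → ℤ) (p : Fin (d + 1) → ℤ) : Prop :=
  H + sq (ctr m g) - h ≤ p 0 + 2 * ip (ctr m g) (Fin.tail p)

instance (m : ℕ) (H h : ℤ) (g : Fin d → ℤ) : DecidablePred (Cap m H h g) := fun p => by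
  unfold Cap; infer_instance

lemma ip_sub_sq (x p : Fin d → ℤ) : 2 * ip x p = sq x + sq p - sq (p - x) := by
  rw [sq_sub]
  ring

lemma cap_bound {r m : ℕ} {H h : ℤ} {g : Fin d → ℤ} {p : Fin (d + 1) → ℤ} (hp : p ∈ S r H)
    (hc : Cap m H h g p) : sq (Fin.tail p - ctr m g) ≤ h := by
  rw [mem_S] at hp
  unfold Cap at hc
  rw [ip_sub_sq] at hc
  linarith [hp.2.2]

lemma cap_neg {r m : ℕ} {H : ℤ} {g : Fin d → ℤ} {p : Fin (d + 1) → ℤ} (hp : p ∈ S r H) :
    p 0 + 2 * ip (ctr m g) (Fin.tail p) ≤ H + sq (ctr m g) := by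
  rw [mem_S] at hp
  rw [ip_sub_sq]
  have := sq_nonneg' (Fin.tail p - ctr m g)
  linarith [hp.2.2]

lemma coord_le_sq (x : Fin d → ℤ) (i : Fin d) : x i ^ 2 ≤ sq x :=
  single_le_sum (f := fun i => x i ^ 2) (fun i _ => sq_nonneg (x i)) (mem_univ i)

lemma cap_disj {r m : ℕ} {H h : ℤ} {g g' : Fin d → ℤ} {p : Fin (d + 1) → ℤ} (hp : p ∈ S r H)
    (hm : 4 * h < (m : ℤ) ^ 2) (hc : Cap m H h g p) (hc' : Cap m H h g' p) : g = g' := by
  have h1 := cap_bound hp hc
  have h2 := cap_bound hp hc'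
  funext i
  have h3 := (coord_le_sq (Fin.tail p - ctr m g) i).trans h1
  have h4 := (coord_le_sq (Fin.tail p - ctr m g') i).trans h2
  simp only [Pi.sub_apply, ctr] at h3 h4
  by_contra hne
  have h5 : 1 ≤ (g i - g' i) ^ 2 := by
    have : g i - g' i ≠ 0 := sub_ne_zero.mpr hne
    have := sq_pos_of_ne_zero this
    omega
  have h6 : (m : ℤ) ^ 2 ≤ (m * g i - m * g' i) ^ 2 := by
    calc (m : ℤ) ^ 2 = (m : ℤ) ^ 2 * 1 := by ring
      _ ≤ (m : ℤ) ^ 2 * (g i - g' i) ^ 2 := by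
          exact mul_le_mul_of_nonneg_left h5 (sq_nonneg _)
      _ = _ := by ring
  nlinarith [sq_nonneg (2 * Fin.tail p i - m * g i - m * g' i)]

/-- A family of points of the doubled cap indexed by `g`. -/
noncomputable def Z (m q : ℕ) (H : ℤ) (g : Fin d → ℤ) : Finset (Fin (d + 1) → ℤ) :=
  ((box d q) ×ˢ (Icc (0 : ℤ) (d * q ^ 2 : ℕ))).image fun z =>
    (Fin.cons (2 * H - 2 * sq (ctr m g) - 2 * ip (ctr m g) z.1 - 2 * (d * q ^ 2 : ℕ) + z.2)
      ((2 : ℤ) • ctr m g + z.1) : Fin (d + 1) → ℤ)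

lemma card_Z (m q : ℕ) (H : ℤ) (g : Fin d → ℤ) :
    (Z m q H g).card = (2 * q + 1) ^ d * (d * q ^ 2 + 1) := by
  rw [Z, card_image_of_injective, card_product, card_box, Int.card_Icc]
  · congr 1
  · rintro ⟨x, y⟩ ⟨x', y'⟩ h
    simp only at h
    rw [Fin.cons_inj] at h
    obtain ⟨h1, h2⟩ := h
    have hx : x = x' := add_left_cancel h2
    subst hx
    have hy : y = y' := by linarith
    rw [hy]

lemma Z_lin {m q : ℕ} {H : ℤ} {g : Fin d → ℤ} {z : Fin (d + 1) → ℤ} (hz : z ∈ Z m q H g) :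
    2 * (H + sq (ctr m g)) - 2 * (d * q ^ 2 : ℕ) ≤ z 0 + 2 * ip (ctr m g) (Fin.tail z) := by
  rw [Z, mem_image] at hz
  obtain ⟨⟨e, j⟩, hej, rfl⟩ := hz
  rw [mem_product, mem_Icc] at hej
  simp only [Fin.cons_zero, Fin.tail_cons]
  rw [ip_add]
  have h1 : ip (ctr m g) ((2 : ℤ) • ctr m g) = 2 * sq (ctr m g) := by
    simp only [ip, sq, Pi.smul_apply, smul_eq_mul, mul_sum]
    refine sum_congr rfl fun i _ => ?_
    ring
  rw [h1]
  linarith [hej.2.1]

lemma sq_two_add (x e : Fin d → ℤ) : sq ((2 : ℤ) • x + e) = 4 * sq x + 4 * ip x e + sq e := by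
  simp only [ip, sq, Pi.smul_apply, Pi.add_apply, smul_eq_mul, mul_sum]
  rw [← sum_add_distrib, ← sum_add_distrib]
  refine sum_congr rfl fun i _ => ?_
  ring

lemma ip_le {r q : ℕ} {x e : Fin d → ℤ} (hx : x ∈ box d r) (he : e ∈ box d q) :
    ip x e ≤ d * (r * q : ℤ) := by
  rw [mem_box] at hx he
  have : ip x e ≤ ∑ _i : Fin d, (r * q : ℤ) := by
    refine sum_le_sum fun i _ => ?_
    have h1 := hx i
    have h2 := he i
    have h3 : |x i| ≤ r := abs_le.mpr h1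
    have h4 : |e i| ≤ q := abs_le.mpr h2
    calc x i * e i ≤ |x i * e i| := le_abs_self _
      _ = |x i| * |e i| := abs_mul _ _
      _ ≤ r * q := mul_le_mul h3 h4 (abs_nonneg _) (by positivity)
  simpa using this

lemma Z_sub_W {m q r R : ℕ} {g : Fin d → ℤ} {z : Fin (d + 1) → ℤ}
    (hq : 2 * q ≤ m) (hr : r = m * (R + 1)) (hg : g ∈ box d R)
    (hz : z ∈ Z m q (2 * d * (r : ℤ) ^ 2) g) :
    z ∈ W r (2 * d * (r : ℤ) ^ 2 + (d * r : ℕ)) := by
  rw [Z, mem_image] at hz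
  obtain ⟨⟨e, j⟩, hej, rfl⟩ := hz
  rw [mem_product, mem_Icc] at hej
  simp only at hej
  obtain ⟨he, hj0, hj1⟩ := hej
  have hx : ctr m g ∈ box d r := by
    rw [mem_box] at hg ⊢
    intro i
    have := hg i
    simp only [ctr]
    rw [hr]
    push_cast
    constructor <;> nlinarith
  have hr2 : 2 * q ≤ r := by
    rw [hr]
    nlinarith
  have hsqe := sq_le_of_box he
  have hsqx := sq_le_of_box hx
  have hip := ip_le hx he
  have hqr : (2 * q : ℤ) ≤ r := by exact_mod_cast hr2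
  have hq0 : (0 : ℤ) ≤ q := by positivity
  have hd0 : (0 : ℤ) ≤ d := by positivity
  apply mem_W
  · simp only [Fin.tail_cons]
    rw [mem_box] at hg he ⊢
    intro i
    have h1 := hg i
    have h2 := he i
    simp only [Pi.add_apply, Pi.smul_apply, smul_eq_mul, ctr]
    rw [hr]
    push_cast
    have hqm : (2 * q : ℤ) ≤ m := by exact_mod_cast hq
    constructor <;> nlinarith
  · simp only [Fin.cons_zero]
    push_cast
    have h1 : (d : ℤ) * (r * q) * 2 ≤ d * (r : ℤ) ^ 2 := by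
      have : (r : ℤ) * q * 2 ≤ (r : ℤ) ^ 2 := by nlinarith
      nlinarith
    have h2 : (d : ℤ) * (q : ℤ) ^ 2 * 2 ≤ d * (r : ℤ) ^ 2 := by
      have : (q : ℤ) ^ 2 * 2 ≤ (r : ℤ) ^ 2 := by nlinarith
      nlinarith
    linarith
  · simp only [Fin.cons_zero, Fin.tail_cons]
    rw [sq_two_add]
    push_cast at hj1 ⊢
    have h2 : 0 ≤ (d : ℤ) * (q : ℤ) ^ 2 := by positivity
    linarith

lemma Z_disj {m q : ℕ} {H : ℤ} {g g' : Fin d → ℤ} (hm : q < m) (hne : g ≠ g') :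
    Disjoint (Z m q H g) (Z m q H g') := by
  rw [disjoint_left]
  intro z hz hz'
  apply hne
  rw [Z, mem_image] at hz hz'
  obtain ⟨⟨e, j⟩, hej, rfl⟩ := hz
  obtain ⟨⟨e', j'⟩, hej', h⟩ := hz'
  rw [mem_product] at hej hej'
  rw [Fin.cons_inj] at h
  have h2 := h.2
  have he := hej.1
  have he' := hej'.1
  rw [mem_box] at he he'
  funext i
  have h3 := congrFun h2 i
  simp only [Pi.add_apply, Pi.smul_apply, smul_eq_mul, ctr] at h3
  have h4 := he i
  have h5 := he' i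
  simp only at h4 h5
  have h6 : (m : ℤ) * (g i - g' i) ≤ q := by linarith
  have h7 : -(q : ℤ) ≤ (m : ℤ) * (g i - g' i) := by linarith
  have hm' : (q : ℤ) < m := by exact_mod_cast hm
  have hq0 : (0 : ℤ) ≤ q := by positivity
  by_contra hne'
  rcases lt_or_gt_of_ne hne' with h8 | h8
  · nlinarith
  · nlinarith


lemma add_sub_W {r : ℕ} {A' : Finset (Fin (d + 1) → ℤ)} {H : ℤ} (hA' : A' ⊆ S r H) :
    A' + A' ⊆ W r (H + (d * r : ℕ)) := by
  intro z hz
  rw [mem_add] at hz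
  obtain ⟨a, ha, b, hb, rfl⟩ := hz
  have ha' := mem_S.mp (hA' ha)
  have hb' := mem_S.mp (hA' hb)
  obtain ⟨a1, a2, a3⟩ := ha'
  obtain ⟨b1, b2, b3⟩ := hb'
  have ht : Fin.tail (a + b) = Fin.tail a + Fin.tail b := rfl
  apply mem_W
  · rw [mem_box] at a1 b1 ⊢
    intro i
    have h1 := a1 i
    have h2 := b1 i
    rw [ht]
    simp only [Pi.add_apply]
    push_cast
    constructor <;> linarith
  · simp only [Pi.add_apply]
    linarith
  · rw [ht]
    simp only [Pi.add_apply]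
    have := sq_add_le (Fin.tail a) (Fin.tail b)
    linarith

lemma inter_Z {r m q : ℕ} {A' : Finset (Fin (d + 1) → ℤ)} {H : ℤ} (hA' : A' ⊆ S r H)
    (g : Fin d → ℤ) :
    (A' + A') ∩ Z m q H g ⊆
      A'.filter (Cap m H (2 * (d * q ^ 2 : ℕ)) g) + A'.filter (Cap m H (2 * (d * q ^ 2 : ℕ)) g) := by
  intro z hz
  rw [mem_inter, mem_add] at hz
  obtain ⟨⟨a, ha, b, hb, rfl⟩, hz⟩ := hz
  have h1 := Z_lin hz
  have ht : Fin.tail (a + b) = Fin.tail a + Fin.tail b := rfl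
  rw [ht, ip_add] at h1
  simp only [Pi.add_apply] at h1
  have h2 := cap_neg (m := m) (g := g) (hA' ha)
  have h3 := cap_neg (m := m) (g := g) (hA' hb)
  rw [mem_add]
  refine ⟨a, ?_, b, ?_, rfl⟩
  · rw [mem_filter]
    refine ⟨ha, ?_⟩
    unfold Cap
    linarith
  · rw [mem_filter]
    refine ⟨hb, ?_⟩
    unfold Cap
    linarith

lemma main_count {m q r R : ℕ} (hd : 1 ≤ d) (hq : 1 ≤ q) (hm : m = 4 * d * q)
    (hr : r = m * (R + 1)) (A' : Finset (Fin (d + 1) → ℤ))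
    (hA' : A' ⊆ S r (2 * d * (r : ℤ) ^ 2)) :
    ((A' + A').card : ℝ) ≤ ((W (d := d) r (2 * d * (r : ℤ) ^ 2 + (d * r : ℕ))).card : ℝ) -
      (((2 * R + 1) ^ d : ℕ) : ℝ) * (((2 * q + 1) ^ d * (d * q ^ 2 + 1) : ℕ) : ℝ) +
      √(((2 * q + 1) ^ d * (d * q ^ 2 + 1) : ℕ) : ℝ) * (A'.card : ℝ) := by
  classical
  set H : ℤ := 2 * d * (r : ℤ) ^ 2 with hH
  set ζ : ℕ := (2 * q + 1) ^ d * (d * q ^ 2 + 1) with hζ
  set h : ℤ := 2 * (d * q ^ 2 : ℕ) with hh
  set T := A' + A' with hT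
  have hqm : 2 * q ≤ m := by rw [hm]; nlinarith
  have hqm' : q < m := by omega
  have hm2 : 4 * h < (m : ℤ) ^ 2 := by
    have h1 : (m : ℤ) = 4 * d * q := by rw [hm]; push_cast; ring
    have h2 : (1 : ℤ) ≤ d := by exact_mod_cast hd
    have h3 : (1 : ℤ) ≤ q := by exact_mod_cast hq
    rw [hh, h1]
    push_cast
    have h4 : 0 < (d : ℤ) * q ^ 2 := by positivity
    have h5 : (4 * (d : ℤ) * q) ^ 2 = 16 * d * (d * q ^ 2) := by ring
    rw [h5]
    nlinarith
  set U := W (d := d) r (H + (d * r : ℕ)) with hU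
  set ZZ := (box d R).biUnion (Z m q H) with hZZ
  have hZcard : ZZ.card = (2 * R + 1) ^ d * ζ := by
    rw [hZZ, card_biUnion]
    · simp only [card_Z]
      rw [sum_const, card_box, smul_eq_mul]
    · intro g _ g' _ hne
      exact Z_disj hqm' hne
  have hZU : ZZ ⊆ U := by
    intro z hz
    rw [hZZ, mem_biUnion] at hz
    obtain ⟨g, hg, hz⟩ := hz
    exact Z_sub_W hqm hr hg hz
  have hTU : T ⊆ U := add_sub_W hA'
  have hsum : ∑ g ∈ box d R, (A'.filter (Cap m H h g)).card ≤ A'.card := by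
    rw [← card_biUnion]
    · apply card_le_card
      intro a ha
      rw [mem_biUnion] at ha
      obtain ⟨g, _, ha⟩ := ha
      exact (mem_filter.mp ha).1
    · intro g _ g' _ hne
      change Disjoint _ _
      rw [disjoint_left]
      intro a ha ha'
      rw [mem_filter] at ha ha'
      exact hne (cap_disj (hA' ha.1) hm2 ha.2 ha'.2)
  have hpiece : ∀ g, ((T ∩ Z m q H g).card : ℝ) ≤
      √(ζ : ℝ) * ((A'.filter (Cap m H h g)).card : ℝ) := by
    intro g
    have h1 : (T ∩ Z m q H g).card ≤ ζ := by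
      rw [hζ, ← card_Z m q H g]
      exact card_le_card inter_subset_right
    have h2 : (T ∩ Z m q H g).card ≤ (A'.filter (Cap m H h g)).card * (A'.filter (Cap m H h g)).card :=
      (card_le_card (inter_Z hA' g)).trans card_add_le
    have h3 : ((T ∩ Z m q H g).card : ℝ) ≤ ζ := by exact_mod_cast h1
    have h4 : ((T ∩ Z m q H g).card : ℝ) ≤
        ((A'.filter (Cap m H h g)).card : ℝ) * ((A'.filter (Cap m H h g)).card : ℝ) := by
      exact_mod_cast h2
    have h5 : (0 : ℝ) ≤ ((A'.filter (Cap m H h g)).card : ℝ) := by positivity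
    have h6 : (0 : ℝ) ≤ ((T ∩ Z m q H g).card : ℝ) := by positivity
    have h7 : ((T ∩ Z m q H g).card : ℝ) ^ 2 ≤
        (√(ζ : ℝ) * ((A'.filter (Cap m H h g)).card : ℝ)) ^ 2 := by
      rw [mul_pow, Real.sq_sqrt (by positivity), pow_two, pow_two]
      exact mul_le_mul h3 h4 h6 (by positivity)
    exact (sq_le_sq₀ h6 (by positivity)).mp h7
  have hTZ : T ⊆ (U \ ZZ) ∪ (box d R).biUnion (fun g => T ∩ Z m q H g) := by
    intro z hz
    rw [mem_union]
    by_cases hzz : z ∈ ZZ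
    · right
      rw [hZZ, mem_biUnion] at hzz
      obtain ⟨g, hg, hz'⟩ := hzz
      rw [mem_biUnion]
      exact ⟨g, hg, mem_inter.mpr ⟨hz, hz'⟩⟩
    · left
      rw [mem_sdiff]
      exact ⟨hTU hz, hzz⟩
  have h1 : (T.card : ℝ) ≤ ((U \ ZZ).card : ℝ) + ∑ g ∈ box d R, ((T ∩ Z m q H g).card : ℝ) := by
    have := (card_le_card hTZ).trans ((card_union_le _ _).trans
      (Nat.add_le_add_left card_biUnion_le _))
    exact_mod_cast this
  have h2 : ((U \ ZZ).card : ℝ) = (U.card : ℝ) - (((2 * R + 1) ^ d : ℕ) : ℝ) * (ζ : ℝ) := by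
    rw [card_sdiff_of_subset hZU, Nat.cast_sub (card_le_card hZU), hZcard]
    push_cast
    ring
  have h3 : ∑ g ∈ box d R, ((T ∩ Z m q H g).card : ℝ) ≤ √(ζ : ℝ) * (A'.card : ℝ) := by
    calc ∑ g ∈ box d R, ((T ∩ Z m q H g).card : ℝ)
        ≤ ∑ g ∈ box d R, √(ζ : ℝ) * ((A'.filter (Cap m H h g)).card : ℝ) :=
          sum_le_sum fun g _ => hpiece g
      _ = √(ζ : ℝ) * ∑ g ∈ box d R, ((A'.filter (Cap m H h g)).card : ℝ) := by rw [mul_sum]
      _ ≤ √(ζ : ℝ) * (A'.card : ℝ) := by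
          apply mul_le_mul_of_nonneg_left _ (Real.sqrt_nonneg _)
          exact_mod_cast hsum
  linarith

/-- not in few parallel hyperplanes -/
lemma not_hyper {r t : ℕ} {L : ℤ} (ht : t ≤ r) (hL : (r : ℤ) ^ 2 ≤ L) :
    ¬ InParallelHyperplanes t (S (d := d) r L) := by
  rintro ⟨v, hv, s, hs⟩
  obtain ⟨j, hj⟩ := Function.ne_iff.mp hv
  have hmem : ∀ i : Fin (t + 1), (Pi.single j (i.val : ℤ) : Fin (d + 1) → ℤ) ∈ S r L := by
    intro i
    have hi : (i.val : ℤ) ≤ r := by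
      have := i.2
      have : i.val ≤ r := by omega
      exact_mod_cast this
    have hi0 : (0 : ℤ) ≤ i.val := by positivity
    rw [mem_S]
    refine Fin.cases ?_ (fun j' => ?_) j
    · have h1 : Fin.tail (Pi.single (0 : Fin (d + 1)) (i.val : ℤ) : Fin (d + 1) → ℤ) = 0 := by
        funext l
        simp [Fin.tail]
      rw [h1]
      refine ⟨?_, ?_, ?_⟩
      · rw [mem_box]
        intro l
        simp
      · simp
      · simp only [Pi.single_eq_same]
        have h2 : sq (0 : Fin d → ℤ) = 0 := by simp [sq]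
        rw [h2]
        nlinarith
    · have h1 : Fin.tail (Pi.single (Fin.succ j') (i.val : ℤ) : Fin (d + 1) → ℤ) =
          Pi.single j' (i.val : ℤ) := by
        funext l
        simp only [Fin.tail, Pi.single_apply, Fin.succ_inj]
      rw [h1]
      refine ⟨?_, ?_, ?_⟩
      · rw [mem_box]
        intro l
        rw [Pi.single_apply]
        split_ifs
        · constructor <;> linarith
        · constructor <;> simp
      · simp [Pi.single_apply]
      · have h2 : sq (Pi.single j' (i.val : ℤ) : Fin d → ℤ) = (i.val : ℤ) ^ 2 := by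
          rw [sq, sum_eq_single j']
          · simp
          · intro b _ hb
            simp [hb]
          · simp
        rw [h2]
        have h3 : (Pi.single (Fin.succ j') (i.val : ℤ) : Fin (d + 1) → ℤ) 0 = 0 := by
          simp [Pi.single_apply]
        rw [h3]
        nlinarith
  choose f hf using fun i : Fin (t + 1) => hs _ (hmem i)
  obtain ⟨i, i', hne, hii⟩ := Fintype.exists_ne_map_eq_of_card_lt f (by simp)
  have h1 := hf i
  have h2 := hf i'
  rw [hii, ← h2] at h1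
  have h3 : ∀ l : Fin (t + 1), ∑ x, v x * (((Pi.single j (l.val : ℤ) : Fin (d + 1) → ℤ) x : ℤ) : ℝ) =
      v j * (l.val : ℝ) := by
    intro l
    rw [sum_eq_single j]
    · simp
    · intro b _ hb
      simp [hb]
    · simp
  rw [h3, h3] at h1
  have h4 := mul_left_cancel₀ hj h1
  apply hne
  apply Fin.ext
  exact_mod_cast h4


/-- the constant of the construction -/
noncomputable def K1 (d : ℕ) : ℝ := 3 ^ (d + 1) * d * (8 * d) ^ (d + 2)

lemma K1_pos (hd : 1 ≤ d) : 0 < K1 d := by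
  have : (0 : ℝ) < d := by exact_mod_cast hd
  unfold K1
  positivity

lemma core (hd : 2 ≤ d) (R : ℕ) (hR : 1 ≤ R) (t : ℕ) :
    ∃ A : Finset (Fin (d + 1) → ℤ), ¬ InParallelHyperplanes t A ∧
      ∀ A' ⊆ A, ∀ c : ℝ, 4 * c ^ 2 * K1 d ≤ (R : ℝ) ^ (d - 2) →
        (A'.card : ℝ) ≤ c * √(A.card : ℝ) →
        ((A' + A').card : ℝ) < (2 ^ (d + 1) - 1 / (4 * K1 d * (R : ℝ) ^ 2)) * (A.card : ℝ) := by
  have hK := K1_pos (d := d) (by omega)
  have hdR : (1 : ℝ) ≤ d := by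
    have : 1 ≤ d := by omega
    exact_mod_cast this
  have hRR : (1 : ℝ) ≤ R := by exact_mod_cast hR
  obtain ⟨q0, hq0⟩ := exists_nat_gt (2 ^ (d + 1) * (4 * K1 d * (R : ℝ) ^ 2))
  set q : ℕ := max (max t q0) 1 with hq
  have hq1 : 1 ≤ q := le_max_right _ _
  have hqt : t ≤ q := (le_max_left _ _).trans (le_max_left _ _)
  have hqq0 : q0 ≤ q := (le_max_right _ _).trans (le_max_left _ _)
  have hqR : (1 : ℝ) ≤ q := by exact_mod_cast hq1
  have hqbig : 2 ^ (d + 1) * (4 * K1 d * (R : ℝ) ^ 2) < q :=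
    hq0.trans_le (by exact_mod_cast hqq0)
  obtain ⟨m, hm⟩ : ∃ m, m = 4 * d * q := ⟨_, rfl⟩
  obtain ⟨r, hr⟩ : ∃ r, r = m * (R + 1) := ⟨_, rfl⟩
  have hmq : q ≤ m := by rw [hm]; nlinarith
  have hqr : q ≤ r := by rw [hr]; nlinarith
  have hr1 : 1 ≤ r := hq1.trans hqr
  have hrR : (1 : ℝ) ≤ r := by exact_mod_cast hr1
  have hrle : (r : ℝ) ≤ 8 * d * (R * q) := by
    rw [hr, hm]
    push_cast
    nlinarith [mul_nonneg (by positivity : (0 : ℝ) ≤ d * q) (sub_nonneg.mpr hRR)]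
  refine ⟨S r (2 * d * (r : ℤ) ^ 2), ?_, ?_⟩
  · apply not_hyper (hqt.trans hqr)
    have : (1 : ℤ) ≤ d := by
      have : 1 ≤ d := by omega
      exact_mod_cast this
    nlinarith [sq_nonneg (r : ℤ)]
  intro A' hA' c hc hcard
  set n : ℝ := ((S (d := d) r (2 * d * (r : ℤ) ^ 2)).card : ℝ) with hn
  have hL : (d : ℤ) * (r : ℤ) ^ 2 ≤ 2 * d * (r : ℤ) ^ 2 := by
    have : (0 : ℤ) ≤ (d : ℤ) * (r : ℤ) ^ 2 := by positivity
    nlinarith
  -- upper bound for `n`
  have hn_up : n ≤ K1 d * ((R : ℝ) * q) ^ (d + 2) := by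
    have h1 := card_S_le (d := d) (r := r) (L := 2 * d * (r : ℤ) ^ 2) (M := 2 * d * r ^ 2 + 1)
      (by push_cast; linarith) hL
    have h2 : n ≤ (2 * (r : ℝ) + 1) ^ d * (2 * d * (r : ℝ) ^ 2 + 1) := by
      rw [hn]
      exact_mod_cast h1
    have h3 : (2 * (r : ℝ) + 1) ^ d ≤ (3 * r) ^ d := by
      apply pow_le_pow_left₀ (by positivity)
      linarith
    have h4 : 2 * (d : ℝ) * (r : ℝ) ^ 2 + 1 ≤ 3 * d * (r : ℝ) ^ 2 := by
      have : (1 : ℝ) ≤ d * (r : ℝ) ^ 2 := by nlinarith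
      linarith
    calc n ≤ (2 * (r : ℝ) + 1) ^ d * (2 * d * (r : ℝ) ^ 2 + 1) := h2
      _ ≤ (3 * r) ^ d * (3 * d * (r : ℝ) ^ 2) :=
          mul_le_mul h3 h4 (by positivity) (by positivity)
      _ = 3 ^ (d + 1) * d * (r : ℝ) ^ (d + 2) := by
          rw [mul_pow, pow_succ, pow_add]
          ring
      _ ≤ 3 ^ (d + 1) * d * (8 * d * (R * q)) ^ (d + 2) := by
          apply mul_le_mul_of_nonneg_left _ (by positivity)
          exact pow_le_pow_left₀ (by positivity) hrle _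
      _ = K1 d * ((R : ℝ) * q) ^ (d + 2) := by
          rw [mul_pow, K1]
          ring
  -- lower bound for `n`
  have hn_lo : (2 * (r : ℝ) + 1) ^ d * (d * r) * r ≤ n := by
    have h1 := card_S_ge (d := d) (r := r) (L := 2 * d * (r : ℤ) ^ 2) (M := d * r ^ 2)
      (by push_cast; linarith) hL
    have h2 : (2 * (r : ℝ) + 1) ^ d * (d * (r : ℝ) ^ 2) ≤ n := by
      rw [hn]
      exact_mod_cast h1
    calc (2 * (r : ℝ) + 1) ^ d * (d * r) * r = (2 * (r : ℝ) + 1) ^ d * (d * (r : ℝ) ^ 2) := by ring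
      _ ≤ n := h2
  have hn_pos : 0 < n := lt_of_lt_of_le (by positivity) hn_lo
  -- bound for `W`
  have hW : ((W (d := d) r (2 * d * (r : ℤ) ^ 2 + (d * r : ℕ))).card : ℝ) ≤
      2 ^ (d + 1) * n + 2 ^ (d + 1) / r * n := by
    have h1 := card_W_le (d := d) r (2 * d * (r : ℤ) ^ 2 + (d * r : ℕ))
    rw [card_S_add hL] at h1
    have h2 : ((W (d := d) r (2 * d * (r : ℤ) ^ 2 + (d * r : ℕ))).card : ℝ) ≤
        (n + (2 * r + 1) ^ d * (d * r)) * 2 ^ (d + 1) := by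
      rw [hn]
      exact_mod_cast h1
    have h3 : (2 * (r : ℝ) + 1) ^ d * (d * r) ≤ n / r := by
      rw [le_div_iff₀ (by positivity)]
      exact hn_lo
    calc ((W (d := d) r (2 * d * (r : ℤ) ^ 2 + (d * r : ℕ))).card : ℝ)
        ≤ (n + (2 * r + 1) ^ d * (d * r)) * 2 ^ (d + 1) := h2
      _ ≤ (n + n / r) * 2 ^ (d + 1) := by
          apply mul_le_mul_of_nonneg_right _ (by positivity)
          linarith
      _ = _ := by ring
  have hmain := main_count (d := d) (by omega) hq1 hm hr A' hA'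
  set N : ℝ := (((2 * R + 1) ^ d : ℕ) : ℝ) with hN
  set ζ : ℝ := (((2 * q + 1) ^ d * (d * q ^ 2 + 1) : ℕ) : ℝ) with hζ
  have hN_lo : (R : ℝ) ^ d ≤ N := by
    rw [hN]
    push_cast
    exact pow_le_pow_left₀ (by positivity) (by linarith) _
  have hζ_lo : (q : ℝ) ^ (d + 2) ≤ ζ := by
    rw [hζ, pow_add]
    push_cast
    apply mul_le_mul _ _ (by positivity) (by positivity)
    · exact pow_le_pow_left₀ (by positivity) (by linarith) _
    · nlinarith [sq_nonneg (q : ℝ)]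
  have hζ_pos : 0 < ζ := lt_of_lt_of_le (by positivity) hζ_lo
  have hN_pos : 0 < N := lt_of_lt_of_le (by positivity) hN_lo
  -- `N ζ ≥ n / (K1 R²)`
  have hNζ : n / (K1 d * (R : ℝ) ^ 2) ≤ N * ζ := by
    rw [div_le_iff₀ (by positivity)]
    calc n ≤ K1 d * ((R : ℝ) * q) ^ (d + 2) := hn_up
      _ = ((R : ℝ) ^ d * (q : ℝ) ^ (d + 2)) * (K1 d * (R : ℝ) ^ 2) := by
          rw [mul_pow, pow_add (R : ℝ)]
          ring
      _ ≤ (N * ζ) * (K1 d * (R : ℝ) ^ 2) := by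
          apply mul_le_mul_of_nonneg_right _ (by positivity)
          exact mul_le_mul hN_lo hζ_lo (by positivity) (by positivity)
  -- `4 c² n ≤ N² ζ`
  have hN2 : 4 * c ^ 2 * n ≤ N ^ 2 * ζ := by
    obtain ⟨e, he⟩ : ∃ e, d = e + 2 := ⟨d - 2, by omega⟩
    have hpow : (R : ℝ) ^ (d - 2) * (R : ℝ) ^ (d + 2) = ((R : ℝ) ^ d) ^ 2 := by
      rw [he, ← pow_add, ← pow_mul]
      congr 1
      omega
    calc 4 * c ^ 2 * n ≤ 4 * c ^ 2 * (K1 d * ((R : ℝ) * q) ^ (d + 2)) := by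
          apply mul_le_mul_of_nonneg_left hn_up (by positivity)
      _ = (4 * c ^ 2 * K1 d) * ((R : ℝ) * q) ^ (d + 2) := by ring
      _ ≤ (R : ℝ) ^ (d - 2) * ((R : ℝ) * q) ^ (d + 2) := by
          apply mul_le_mul_of_nonneg_right hc (by positivity)
      _ = ((R : ℝ) ^ (d - 2) * (R : ℝ) ^ (d + 2)) * (q : ℝ) ^ (d + 2) := by
          rw [mul_pow]
          ring
      _ = ((R : ℝ) ^ d) ^ 2 * (q : ℝ) ^ (d + 2) := by rw [hpow]
      _ ≤ N ^ 2 * ζ := by
          apply mul_le_mul _ hζ_lo (by positivity) (by positivity)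
          exact pow_le_pow_left₀ (by positivity) hN_lo 2
  have hterm : √ζ * (A'.card : ℝ) ≤ N * ζ / 2 := by
    have h1 : √ζ * (A'.card : ℝ) ≤ √ζ * (c * √n) :=
      mul_le_mul_of_nonneg_left hcard (Real.sqrt_nonneg _)
    refine h1.trans ?_
    have h2 : (√ζ * (c * √n)) ^ 2 ≤ (N * ζ / 2) ^ 2 := by
      rw [mul_pow, mul_pow, Real.sq_sqrt hζ_pos.le, Real.sq_sqrt hn_pos.le]
      nlinarith [mul_le_mul_of_nonneg_left hN2 hζ_pos.le]
    exact abs_le_of_sq_le_sq' h2 (by positivity) |>.2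
  have hsmall : 2 ^ (d + 1) / (r : ℝ) * n < n / (4 * (K1 d * (R : ℝ) ^ 2)) := by
    have h1 : 2 ^ (d + 1) / (r : ℝ) < 1 / (4 * (K1 d * (R : ℝ) ^ 2)) := by
      rw [div_lt_div_iff₀ (by positivity) (by positivity)]
      have : (q : ℝ) ≤ r := by exact_mod_cast hqr
      nlinarith
    calc 2 ^ (d + 1) / (r : ℝ) * n < 1 / (4 * (K1 d * (R : ℝ) ^ 2)) * n :=
          mul_lt_mul_of_pos_right h1 hn_pos
      _ = _ := by ring
  have hfin : n / (K1 d * (R : ℝ) ^ 2) = 4 * (n / (4 * (K1 d * (R : ℝ) ^ 2))) := by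
    field_simp
  have hexp : (2 ^ (d + 1) - 1 / (4 * K1 d * (R : ℝ) ^ 2)) * n =
      2 ^ (d + 1) * n - n / (4 * (K1 d * (R : ℝ) ^ 2)) := by
    rw [sub_mul]
    congr 1
    rw [mul_assoc 4]
    ring
  rw [hexp]
  linarith


/-- Quantitative form, for every `k ≥ 3`. -/
lemma quantitative (hd : 2 ≤ d) :
    ∃ δ : ℝ, 0 < δ ∧ ∃ ε₀ : ℝ, 0 < ε₀ ∧ ∀ ε : ℝ, 0 < ε → ε ≤ ε₀ → ∀ t : ℕ,
      ∃ A : Finset (Fin (d + 1) → ℤ), ¬ InParallelHyperplanes t A ∧
        ∀ A' ⊆ A, (A'.card : ℝ) ≤ δ * ε ^ (-(((d : ℝ) - 2) / 4)) * √(A.card : ℝ) →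
          ((A' + A').card : ℝ) < (2 ^ (d + 1) - ε) * (A.card : ℝ) := by
  have hK := K1_pos (d := d) (by omega)
  set K := K1 d with hKdef
  set a : ℝ := ((d : ℝ) - 2) / 4 with ha
  refine ⟨√((1 / (4 * K)) * (1 / (16 * K)) ^ (2 * a)), by positivity, 1 / (4 * K), by positivity, ?_⟩
  intro ε hε hε0 t
  set y : ℝ := √(1 / (4 * K * ε)) with hy
  have hy1 : 1 ≤ y := by
    rw [hy, Real.one_le_sqrt, le_div_iff₀ (by positivity)]
    rw [le_div_iff₀ (by positivity)] at hε0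
    linarith
  set R : ℕ := ⌊y⌋₊ with hR
  have hR1 : 1 ≤ R := by
    rw [hR]
    exact Nat.one_le_floor_iff _ |>.mpr hy1
  have hRle : (R : ℝ) ≤ y := Nat.floor_le (by positivity)
  have hRR : (1 : ℝ) ≤ R := by exact_mod_cast hR1
  have hRge : y / 2 ≤ R := by
    have := Nat.lt_floor_add_one y
    linarith
  have hysq : y ^ 2 = 1 / (4 * K * ε) := Real.sq_sqrt (by positivity)
  have hεR : ε ≤ 1 / (4 * K * (R : ℝ) ^ 2) := by
    rw [le_div_iff₀ (by positivity)]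
    have h1 : (R : ℝ) ^ 2 ≤ y ^ 2 := pow_le_pow_left₀ (by positivity) hRle 2
    rw [hysq, le_div_iff₀ (by positivity)] at h1
    linarith
  obtain ⟨A, hA1, hA2⟩ := core hd R hR1 t
  refine ⟨A, hA1, ?_⟩
  intro A' hA' hcard
  have hc : 4 * (√((1 / (4 * K)) * (1 / (16 * K)) ^ (2 * a)) * ε ^ (-a)) ^ 2 * K ≤
      (R : ℝ) ^ (d - 2) := by
    rw [mul_pow, Real.sq_sqrt (by positivity)]
    have h1 : (ε ^ (-a)) ^ 2 = (1 / ε) ^ (2 * a) := by
      rw [one_div, Real.inv_rpow hε.le, ← Real.rpow_neg hε.le, ← Real.rpow_natCast,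
        ← Real.rpow_mul hε.le]
      congr 1
      push_cast
      ring
    rw [h1]
    have h2 : 4 * (1 / (4 * K) * (1 / (16 * K)) ^ (2 * a) * (1 / ε) ^ (2 * a)) * K =
        (1 / (16 * K)) ^ (2 * a) * (1 / ε) ^ (2 * a) := by
      field_simp
    rw [h2, ← Real.mul_rpow (by positivity) (by positivity)]
    have h3 : 1 / (16 * K) * (1 / ε) = (y / 2) ^ 2 := by
      rw [div_pow, hysq]
      field_simp
      norm_num
    rw [h3, ← Real.rpow_natCast (y / 2) 2, ← Real.rpow_mul (by positivity)]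
    have h4 : ((2 : ℕ) : ℝ) * (2 * a) = ((d - 2 : ℕ) : ℝ) := by
      rw [ha, Nat.cast_sub hd]
      push_cast
      ring
    rw [h4, Real.rpow_natCast]
    exact pow_le_pow_left₀ (by positivity) hRge _
  have h5 := hA2 A' hA' _ hc hcard
  refine h5.trans_le ?_
  apply mul_le_mul_of_nonneg_right _ (by positivity)
  linarith

lemma negative (hd : 3 ≤ d) : ¬ UniformSmallSubsets (d + 1) := by
  rintro ⟨c, hc⟩
  obtain ⟨δ, hδ, ε₀, hε₀, h⟩ := quantitative (d := d) (by omega)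
  have hd' : (0 : ℝ) < ((d : ℝ) - 2) / 4 := by
    have : (3 : ℝ) ≤ d := by exact_mod_cast hd
    linarith
  have hlim : Filter.Tendsto (fun ε : ℝ => δ * ε ^ (-(((d : ℝ) - 2) / 4)))
      (nhdsWithin 0 (Set.Ioi 0)) Filter.atTop :=
    (tendsto_rpow_neg_nhdsGT_zero (by linarith)).const_mul_atTop hδ
  have hev := hlim.eventually_ge_atTop c
  have hev2 : ∀ᶠ ε : ℝ in nhdsWithin 0 (Set.Ioi 0), ε ∈ Set.Ioc 0 ε₀ :=
    Ioc_mem_nhdsGT hε₀
  obtain ⟨ε, h1, h2⟩ := (hev.and hev2).exists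
  obtain ⟨t, ht⟩ := hc ε h2.1
  obtain ⟨A, hA1, hA2⟩ := h ε h2.1 h2.2 t
  obtain ⟨A', hA', hcard, hge⟩ := ht A hA1
  have := hA2 A' hA' (hcard.trans (mul_le_mul_of_nonneg_right h1 (Real.sqrt_nonneg _)))
  linarith

/-- **Negative answer to Q1 for every `k ≥ 4`**, with a quantitative form: in dimension `k ≥ 4`,
a constant `c(k, ε)` that works must be at least of order `ε ^ (-(k - 3) / 4)`. -/
theorem result (k : ℕ) (hk : 4 ≤ k) :
    ¬ UniformSmallSubsets k ∧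
    ∃ δ : ℝ, 0 < δ ∧ ∃ ε₀ : ℝ, 0 < ε₀ ∧ ∀ ε : ℝ, 0 < ε → ε ≤ ε₀ → ∀ t : ℕ,
      ∃ A : Finset (Fin k → ℤ), ¬ InParallelHyperplanes t A ∧
        ∀ A' ⊆ A, (A'.card : ℝ) ≤ δ * ε ^ (-(((k : ℝ) - 3) / 4)) * √(A.card : ℝ) →
          ((A' + A').card : ℝ) < (2 ^ k - ε) * (A.card : ℝ) := by
  obtain ⟨d, rfl⟩ : ∃ d, k = d + 1 := ⟨k - 1, by omega⟩
  refine ⟨negative (by omega), ?_⟩
  have h := quantitative (d := d) (by omega)
  have h1 : (((d + 1 : ℕ) : ℝ) - 3) / 4 = ((d : ℝ) - 2) / 4 := by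
    push_cast
    ring
  rw [h1]
  exact h

end Pool.Agent.Results.MP_0aa4f4_co.NegativeFourUp
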