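import Mathlib

/-!
# MP_0aa4f4_co: the answer to Q1 is no in every dimension `k ≥ 2`

Let `A` consist of the cube `[0, N)^(k-1)` in the hyperplane `x_k = 0` and of the `t` points
`(0, …, 0, j)`, `1 ≤ j ≤ t`. If `N > t`, then `A` is not contained in `t` parallel hyperplanes. But
if `A'` is a subset with at most `c √|A|` elements, then `A' + A'` has at most
`(2 N - 1) ^ (k - 1) + t |A'| ≤ 2 ^ (k - 1) |A| + t c √|A|` elements, because each of the `t`
points is added to at most `c √|A|` points. So `2 ^ k - ε` cannot be reached, whatever `c` is.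
-/

set_option autoImplicit false

namespace Pool.Agent.Results.MP_0aa4f4_co.NegativeTwoUp

open Finset
open scoped Pointwise

/-- The finite set `A ⊆ ℤ^k` is contained in `t` parallel hyperplanes. -/
def InParallelHyperplanes {k : ℕ} (t : ℕ) (A : Finset (Fin k → ℤ)) : Prop :=
  ∃ v : Fin k → ℝ, v ≠ 0 ∧ ∃ s : Fin t → ℝ, ∀ a ∈ A, ∃ i : Fin t, ∑ j, v j * (a j : ℝ) = s i

/-- The property asked about in Q1, in dimension `k`. -/
def UniformSmallSubsets (k : ℕ) : Prop :=
  ∃ c : ℝ, ∀ ε : ℝ, 0 < ε → ∃ t : ℕ, ∀ A : Finset (Fin k → ℤ), ¬ InParallelHyperplanes t A →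
    ∃ A' ⊆ A, (A'.card : ℝ) ≤ c * √(A.card : ℝ) ∧
      (2 ^ k - ε) * (A.card : ℝ) ≤ ((A' + A').card : ℝ)

/-- the cube `[0, N)^m × {0}` -/
noncomputable def cub (m N : ℕ) : Finset (Fin (m + 1) → ℤ) :=
  Fintype.piFinset fun i => if i = Fin.last m then {0} else Ico 0 (N : ℤ)

/-- the points `(0, …, 0, j)`, `1 ≤ j ≤ t` -/
noncomputable def spike (m t : ℕ) : Finset (Fin (m + 1) → ℤ) :=
  (Icc 1 (t : ℤ)).image fun j => Pi.single (Fin.last m) j

theorem mem_cub {m N : ℕ} {x : Fin (m + 1) → ℤ} :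
    x ∈ cub m N ↔ x (Fin.last m) = 0 ∧ ∀ i, i ≠ Fin.last m → 0 ≤ x i ∧ x i < N := by
  rw [cub, Fintype.mem_piFinset]
  constructor
  · intro h
    refine ⟨by simpa using h (Fin.last m), fun i hi => ?_⟩
    have := h i
    rw [if_neg hi, mem_Ico] at this
    exact this
  · rintro ⟨h1, h2⟩ i
    by_cases hi : i = Fin.last m
    · subst hi; simp [h1]
    · rw [if_neg hi, mem_Ico]; exact h2 i hi

theorem card_pi_ite (m : ℕ) (S : Finset ℤ) :
    (Fintype.piFinset fun i : Fin (m + 1) => if i = Fin.last m then ({0} : Finset ℤ) else S).card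
      = S.card ^ m := by
  rw [Fintype.card_piFinset, Fin.prod_univ_castSucc]
  simp [Fin.castSucc_ne_last]

theorem card_cub (m N : ℕ) : (cub m N).card = N ^ m := by
  rw [cub, card_pi_ite]
  simp

theorem card_cub_add (m N : ℕ) : (cub m N + cub m N).card ≤ (2 * N) ^ m := by
  have h : cub m N + cub m N ⊆ cub m (2 * N) := by
    intro x hx
    rw [mem_add] at hx
    obtain ⟨a, ha, b, hb, rfl⟩ := hx
    rw [mem_cub] at *
    refine ⟨by simp [ha.1, hb.1], fun i hi => ?_⟩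
    have h1 := ha.2 i hi
    have h2 := hb.2 i hi
    rw [Pi.add_apply]
    push_cast
    omega
  exact (card_le_card h).trans (card_cub m (2 * N)).le

theorem card_spike (m t : ℕ) : (spike m t).card = t := by
  rw [spike, card_image_of_injective _ (Pi.single_injective _), Int.card_Icc]
  omega

/-- the counterexample -/
noncomputable def ex (m N t : ℕ) : Finset (Fin (m + 1) → ℤ) := cub m N ∪ spike m t

theorem ex_card_ge (m N t : ℕ) : N ^ m ≤ (ex m N t).card := by
  rw [← card_cub m N]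
  exact card_le_card subset_union_left

/-- many values on a line -/
theorem not_fit {k t : ℕ} (A : Finset (Fin k → ℤ)) (v : Fin k → ℝ) (s : Fin t → ℝ) (j : Fin k)
    (hj : v j ≠ 0) (hA : ∀ i : ℤ, 0 ≤ i → i ≤ t → (Pi.single j i : Fin k → ℤ) ∈ A) :
    ¬ ∀ a ∈ A, ∃ i : Fin t, ∑ l, v l * (a l : ℝ) = s i := by
  intro h
  have h1 : ∀ i : Fin (t + 1), ∃ l : Fin t, v j * ((i : ℕ) : ℝ) = s l := by
    intro i
    obtain ⟨l, hl⟩ := h _ (hA (i : ℕ) (by positivity) (by have := i.2; omega))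
    refine ⟨l, ?_⟩
    rw [← hl, Finset.sum_eq_single j]
    · simp
    · intro b _ hb
      simp [Pi.single_eq_of_ne hb]
    · simp
  choose f hf using h1
  have hinj : Function.Injective f := by
    intro a b hab
    have h2 : v j * ((a : ℕ) : ℝ) = v j * ((b : ℕ) : ℝ) := by rw [hf a, hf b, hab]
    have h3 := mul_left_cancel₀ hj h2
    exact Fin.ext (by exact_mod_cast h3)
  have := Fintype.card_le_of_injective f hinj
  simp at this

theorem ex_not (m N t : ℕ) (hN : t < N) : ¬ InParallelHyperplanes t (ex m N t) := by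
  rintro ⟨v, hv, s, hs⟩
  obtain ⟨j, hj⟩ := Function.ne_iff.1 hv
  refine not_fit (ex m N t) v s j hj ?_ hs
  intro i hi0 hit
  rw [ex, mem_union]
  by_cases hj' : j = Fin.last m
  · subst hj'
    rcases hi0.eq_or_lt with h | h
    · left
      rw [mem_cub]
      subst h
      refine ⟨by simp, fun l _ => ?_⟩
      simp
      omega
    · right
      rw [spike, mem_image]
      exact ⟨i, mem_Icc.2 ⟨by omega, hit⟩, rfl⟩
  · left
    rw [mem_cub]
    refine ⟨by rw [Pi.single_eq_of_ne (Ne.symm hj')], fun l _ => ?_⟩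
    by_cases hl : l = j
    · subst hl
      rw [Pi.single_eq_same]
      omega
    · rw [Pi.single_eq_of_ne hl]
      omega

theorem ex_sum (m N t : ℕ) (A' : Finset (Fin (m + 1) → ℤ)) (h : A' ⊆ ex m N t) :
    (A' + A').card ≤ (2 * N) ^ m + A'.card * t := by
  have h1 : A' + A' ⊆ (cub m N + cub m N) ∪ (A' + spike m t) := by
    intro x hx
    rw [mem_add] at hx
    obtain ⟨a, ha, b, hb, rfl⟩ := hx
    rw [mem_union]
    have ha' := h ha
    have hb' := h hb
    rw [ex, mem_union] at ha' hb'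
    rcases hb' with hb' | hb'
    · rcases ha' with ha' | ha'
      · exact Or.inl (add_mem_add ha' hb')
      · right
        rw [add_comm a b]
        exact add_mem_add hb ha'
    · exact Or.inr (add_mem_add ha hb')
  calc (A' + A').card ≤ ((cub m N + cub m N) ∪ (A' + spike m t)).card := card_le_card h1
    _ ≤ (cub m N + cub m N).card + (A' + spike m t).card := card_union_le _ _
    _ ≤ (2 * N) ^ m + A'.card * (spike m t).card :=
        Nat.add_le_add (card_cub_add m N) card_add_le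
    _ = (2 * N) ^ m + A'.card * t := by rw [card_spike]

theorem card_ex (m N t : ℕ) : (ex m N t).card = N ^ m + t := by
  rw [ex, card_union_of_disjoint, card_cub, card_spike]
  rw [Finset.disjoint_left]
  intro x hx hx'
  rw [mem_cub] at hx
  rw [spike, mem_image] at hx'
  obtain ⟨j, hj, rfl⟩ := hx'
  rw [mem_Icc] at hj
  rw [Pi.single_eq_same] at hx
  omega

/-- the quantitative form -/
theorem quant (m : ℕ) (c δ : ℝ) (hδ : 0 < δ) : ∃ η : ℝ, 0 < η ∧
    ∀ N t : ℕ, t < N → (t : ℝ) ≤ η * √((N : ℝ) ^ m) →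
      ∃ A : Finset (Fin (m + 1) → ℤ), A.card = N ^ m + t ∧ ¬ InParallelHyperplanes t A ∧
        ∀ A' ⊆ A, (A'.card : ℝ) ≤ c * √(A.card : ℝ) →
          ((A' + A').card : ℝ) < (2 ^ m + δ) * (A.card : ℝ) := by
  have hc : 0 < 2 * (|c| + 1) := by positivity
  refine ⟨δ / (2 * (|c| + 1)), by positivity, fun N t hN ht => ⟨ex m N t, card_ex m N t,
    ex_not m N t hN, fun A' hA' h => ?_⟩⟩
  have hNpos : (0 : ℝ) < (N : ℝ) := by exact_mod_cast (by omega : 0 < N)
  set n : ℝ := ((ex m N t).card : ℝ) with hn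
  have hn1 : n = (N : ℝ) ^ m + t := by rw [hn, card_ex]; push_cast; rfl
  have hn2 : (N : ℝ) ^ m ≤ n := by rw [hn1]; linarith [Nat.cast_nonneg (α := ℝ) t]
  have hnpos : 0 < n := lt_of_lt_of_le (by positivity) hn2
  have hsum : ((A' + A').card : ℝ) ≤ (2 * (N : ℝ)) ^ m + A'.card * t := by
    exact_mod_cast ex_sum m N t A' hA'
  have h1 : (A'.card : ℝ) ≤ |c| * √n := h.trans (mul_le_mul_of_nonneg_right (le_abs_self c)
    (Real.sqrt_nonneg _))
  have h2 : (t : ℝ) ≤ δ / (2 * (|c| + 1)) * √n :=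
    ht.trans (mul_le_mul_of_nonneg_left (Real.sqrt_le_sqrt hn2) (by positivity))
  have h3 : (A'.card : ℝ) * t ≤ (|c| * √n) * (δ / (2 * (|c| + 1)) * √n) :=
    mul_le_mul h1 h2 (Nat.cast_nonneg _) (by positivity)
  have h4 : (|c| * √n) * (δ / (2 * (|c| + 1)) * √n) = (|c| / (|c| + 1)) * (δ / 2) * n := by
    have h5 : √n * √n = n := Real.mul_self_sqrt hnpos.le
    have h6 : |c| + 1 ≠ 0 := by positivity
    calc (|c| * √n) * (δ / (2 * (|c| + 1)) * √n)
        = (|c| * (δ / (2 * (|c| + 1)))) * (√n * √n) := by ring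
      _ = _ := by rw [h5]; field_simp
  have h5 : |c| / (|c| + 1) ≤ 1 := by
    rw [div_le_one (by positivity)]; linarith
  have h6 : (|c| / (|c| + 1)) * (δ / 2) * n ≤ δ / 2 * n := by
    have : (|c| / (|c| + 1)) * (δ / 2 * n) ≤ 1 * (δ / 2 * n) :=
      mul_le_mul_of_nonneg_right h5 (by positivity)
    linarith
  have h7 : (2 * (N : ℝ)) ^ m ≤ 2 ^ m * n := by
    rw [mul_pow]
    exact mul_le_mul_of_nonneg_left hn2 (by positivity)
  have h8 : 0 < δ / 2 * n := by positivity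
  calc ((A' + A').card : ℝ) ≤ (2 * (N : ℝ)) ^ m + A'.card * t := hsum
    _ ≤ 2 ^ m * n + δ / 2 * n := by linarith
    _ < (2 ^ m + δ) * n := by linarith

/-- For every `k ≥ 2` the answer to Q1 is no. More precisely, for all `c` and `δ > 0` there is
`η > 0` such that whenever `t < N` and `t ≤ η √(N ^ (k - 1))` there is a set `A` of
`N ^ (k - 1) + t` points, not contained in `t` parallel hyperplanes, all of whose subsets `A'` with
at most `c √|A|` elements satisfy `|A' + A'| < (2 ^ (k - 1) + δ) |A|`. -/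
theorem result (k : ℕ) (hk : 2 ≤ k) : ¬ UniformSmallSubsets k ∧
    ∀ c δ : ℝ, 0 < δ → ∃ η : ℝ, 0 < η ∧
      ∀ N t : ℕ, t < N → (t : ℝ) ≤ η * √((N : ℝ) ^ (k - 1)) →
        ∃ A : Finset (Fin k → ℤ), A.card = N ^ (k - 1) + t ∧ ¬ InParallelHyperplanes t A ∧
          ∀ A' ⊆ A, (A'.card : ℝ) ≤ c * √(A.card : ℝ) →
            ((A' + A').card : ℝ) < (2 ^ (k - 1) + δ) * (A.card : ℝ) := by
  obtain ⟨m, rfl⟩ : ∃ m, k = m + 1 := ⟨k - 1, by omega⟩
  have hm : 1 ≤ m := by omega
  rw [Nat.add_sub_cancel]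
  have hq := quant m
  refine ⟨?_, fun c δ hδ => hq c δ hδ⟩
  rintro ⟨c, hc⟩
  obtain ⟨η, hη, hq⟩ := hq c 1 one_pos
  obtain ⟨t, ht⟩ := hc 1 one_pos
  obtain ⟨N, hN⟩ := exists_nat_gt (max (t : ℝ) ((t / η) ^ 2 + 1))
  have hN1 : (t : ℝ) < N := (le_max_left _ _).trans_lt hN
  have hN2 : (t / η) ^ 2 + 1 < (N : ℝ) := (le_max_right _ _).trans_lt hN
  have hN3 : (1 : ℝ) ≤ N := by nlinarith [sq_nonneg (t / η)]
  have hN4 : (t : ℝ) ≤ η * √((N : ℝ) ^ m) := by
    have h1 : t / η ≤ √((N : ℝ) ^ m) := by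
      apply Real.le_sqrt_of_sq_le
      have h2 : (N : ℝ) ≤ (N : ℝ) ^ m := le_self_pow₀ hN3 (by omega)
      linarith
    calc (t : ℝ) = η * (t / η) := by field_simp
      _ ≤ _ := mul_le_mul_of_nonneg_left h1 hη.le
  obtain ⟨A, hA1, hA2, hA3⟩ := hq N t (by exact_mod_cast hN1) hN4
  obtain ⟨A', hA', hcard, hbig⟩ := ht A hA2
  have h1 := hA3 A' hA' hcard
  have h2 : (2 : ℝ) ^ m + 1 ≤ 2 ^ (m + 1) - 1 := by
    have : (2 : ℝ) ≤ 2 ^ m := le_self_pow₀ (by norm_num) (by omega)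
    rw [pow_succ]
    linarith
  have h3 : ((2 : ℝ) ^ m + 1) * (A.card : ℝ) ≤ (2 ^ (m + 1) - 1) * (A.card : ℝ) :=
    mul_le_mul_of_nonneg_right h2 (Nat.cast_nonneg _)
  linarith

end Pool.Agent.Results.MP_0aa4f4_co.NegativeTwoUp
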